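import Pool.Agent.Helper37.LN3.Defs
import Pool.Agent.Helper97.LN2.Fin

/-!
# Project LN3, block FIN3: the assembly
-/

set_option autoImplicit false

namespace Pool.Agent.LN3

open NumberField IsDedekindDomain
open Pool.Agent.HG (Pr nm)
open Pool.Agent.LN (GoodCurve IsRam clsP cls_lower)

/-- the ratio, for a property which forces exponents which are not prime to `n` at a set of primes of
positive density -/
theorem ratio_of (hUP : LN2.StmtUP) (hCLS : LN2.StmtCLS) (hLOW : LN.StmtLOW) (hCLO : LN.StmtCLO)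
    (k : Type) [Field k] [NumberField k] (n : ℕ) (hn : 2 ≤ n) (P : k → Prop) (Q : Set (Pr k))
    (δ C : ℝ) (hδ : 0 < δ) (B : ℕ → Finset (Pr k)) (hB : ∀ x v, v ∈ B x ↔ nm v ≤ x)
    (hQ : ∀ v ∈ Q, ∀ c : k, c ≠ 0 → P c → ∃ d : ℕ, d ∣ n ∧ 1 < d ∧ ¬ IsRam d v c)
    (hsum : ∀ x : ℕ, 2 ≤ x → δ * Real.log (Real.log x) - C ≤
      Finset.sum (@Finset.filter _ (· ∈ Q) (Classical.decPred _) (B x)) fun v => (1 : ℝ) / nm v) :
    ∃ η C : ℝ, 0 < η ∧ 0 < C ∧ ∀ X : ℕ, 3 ≤ X → (Nat.card (clsP n P X) : ℝ) ≤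
      C * Nat.card (clsP (k := k) n (fun _ => True) X) / Real.log X ^ η := by
  classical
  obtain ⟨C₁, hC₁, hupper⟩ := LN2.cls_upper hUP hCLS k n hn P Q ∅ Set.finite_empty δ C B hB
    (fun c hc0 hP v hv _ _ => hQ v hv c hc0 hP) hsum
  obtain ⟨c₁, hc₁, hlower⟩ := cls_lower hLOW hCLO k n hn
  have hφ : (0 : ℝ) < n.totient := by exact_mod_cast Nat.totient_pos.2 (by omega)
  refine ⟨n.totient * δ, C₁ / c₁, by positivity, by positivity, fun X hX => ?_⟩
  have hX3 : (3 : ℝ) ≤ X := by exact_mod_cast hX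
  have hlog : 0 < Real.log X := Real.log_pos (by linarith)
  have h1 := hupper X hX
  have h2 := hlower X hX
  refine h1.trans ?_
  rw [le_div_iff₀ (Real.rpow_pos_of_pos hlog _)]
  calc C₁ * X * Real.log X ^ (((n - 1 : ℕ) : ℝ) - n.totient * δ - 1) *
        Real.log X ^ (n.totient * δ)
      = C₁ * X * (Real.log X ^ (((n - 1 : ℕ) : ℝ) - n.totient * δ - 1) *
        Real.log X ^ (n.totient * δ)) := by ring
    _ = C₁ * X * Real.log X ^ (((n - 1 : ℕ) : ℝ) - 1) := by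
        rw [← Real.rpow_add hlog]
        congr 2
        ring
    _ = C₁ / c₁ * (c₁ * X * Real.log X ^ (((n - 1 : ℕ) : ℝ) - 1)) := by field_simp
    _ ≤ C₁ / c₁ * Nat.card (clsP (k := k) n (fun _ => True) X) :=
        mul_le_mul_of_nonneg_left h2 (by positivity)

theorem fin_of (hGL : StmtGL) (hUP : LN2.StmtUP) (hCLS : LN2.StmtCLS) (hLOW : LN.StmtLOW)
    (hCLO : LN.StmtCLO) : StmtFin := by
  classical
  intro k K0 _ _ _ _ n h hn hG σ
  obtain ⟨B, hB⟩ := Pool.Agent.HG.exists_B5 k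
  obtain ⟨δ, C, Q, hδ, hQ, hsum⟩ := hGL k K0 n h hn hG σ B hB
  refine ratio_of hUP hCLS hLOW hCLO k n hn (fun c => BadDeg n h σ c) Q δ C hδ B hB hQ ?_
  intro x hx
  have h1 := (abs_le.1 (hsum x hx)).1
  have h2 : (Finset.sum (@Finset.filter _ (· ∈ Q) (Classical.decPred _) (B x))
      fun v => (1 : ℝ) / nm v) = ∑ v ∈ (B x).filter (· ∈ Q), (1 : ℝ) / nm v := by
    congr
  rw [h2]
  linarith

end Pool.Agent.LN3
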